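import Mathlib
import Pool.Agent.helper54.Schub.Defs
import Pool.Agent.helper54.Sum.CDefs
import Pool.Agent.helper54.Sum.GMain

/-!
# The direct summands of the maximizers of the principal evaluation grow geometrically
-/

namespace Pool.Agent.Results.MP_cb98a7_co.GeometricSummands

open Equiv Pool.Agent.helper54.Schub Pool.Agent.helper54.Sum

/-- The family of Schubert polynomials exists and is unique, and for every maximizer `w` of the
principal evaluation on `S_n` : if `0 < k < e` are cut points of `w` then `k ≤ 100 (e - k)`; every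
cut point `k < n` satisfies `n ≤ 101 (n - k)`; `w` has at most `100 (⌊log₂ n⌋ + 1)` direct
summands. -/
theorem result :
    (∀ n : ℕ, ∃! S : Perm (Fin n) → MvPolynomial (Fin n) ℤ, IsSchubert n S) ∧
    ∀ n : ℕ, ∀ S : Perm (Fin n) → MvPolynomial (Fin n) ℤ, IsSchubert n S →
      ∀ w : Perm (Fin n), (∀ x : Perm (Fin n), nu S x ≤ nu S w) →
        (∀ k e : ℕ, 0 < k → k < e → IsCut w k → IsCut w e → k ≤ 100 * (e - k)) ∧
          (∀ k : ℕ, k < n → IsCut w k → n ≤ 101 * (n - k)) ∧
          summands w ≤ 100 * (Nat.log 2 n + 1) :=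
  ⟨existsUnique_isSchubert, fun n S hS w hw =>
    Pool.Agent.helper54.Sum.geometric n S hS w hw⟩

end Pool.Agent.Results.MP_cb98a7_co.GeometricSummands
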