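import Mathlib
import Pool.Agent.helper54.Schub.Defs
import Pool.Agent.helper54.Schub.Lay

/-!
# Maximizers of the principal evaluation of Schubert polynomials are not layered
-/

namespace Pool.Agent.Results.MP_cb98a7_co.NotLayered

open Equiv Pool.Agent.helper54.Schub

/-- The family of Schubert polynomials exists and is unique, and for every `n ≥ 17` no layered
permutation of `n` letters attains the maximum of the principal evaluation: the Merzon–Smirnov
conjecture fails for every `n ≥ 17`. -/
theorem result :
    (∀ n : ℕ, ∃! S : Perm (Fin n) → MvPolynomial (Fin n) ℤ, IsSchubert n S) ∧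
    ∀ n : ℕ, 17 ≤ n → ∀ S : Perm (Fin n) → MvPolynomial (Fin n) ℤ, IsSchubert n S →
      ¬ ∃ w : Perm (Fin n), IsLayered w ∧ ∀ v : Perm (Fin n), nu S v ≤ nu S w := by
  refine ⟨existsUnique_isSchubert, ?_⟩
  rintro n hn S hS ⟨w, hw, hmax⟩
  obtain ⟨v, hv⟩ := not_layered hn hS w hw
  exact absurd (hmax v) (not_le.2 hv)

end Pool.Agent.Results.MP_cb98a7_co.NotLayered
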