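import Mathlib
import Pool.Agent.helper54.Schub.Defs
import Pool.Agent.helper58.Far.Main

/-!
# Maximizers of the principal evaluation against neighbourhoods of the layered permutations
-/

namespace Pool.Agent.Results.MP_cb98a7_co.StabilityGap

open Equiv Pool.Agent.helper54.Schub Pool.Agent.helper58.Far

/-- The family of Schubert polynomials exists and is unique, and for every `n ≥ 10 ^ 14`, every
maximizer `u` of the principal evaluation on `S_n` and every layered permutation `v` of `n`
letters : the principal evaluation of every permutation `w` is at most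
`exp (67 D - n ^ 2 / (5 * 10 ^ 27))` times the maximum, where `D` is the number of pairs of
positions which are ordered differently by `w` and by `v`; and therefore the maximizer `u` itself
orders at least `n ^ 2 / (4 * 10 ^ 29)` pairs of positions differently from `v`. -/
theorem result :
    (∀ n : ℕ, ∃! S : Perm (Fin n) → MvPolynomial (Fin n) ℤ, IsSchubert n S) ∧
    ∀ n : ℕ, 10 ^ 14 ≤ n → ∀ S : Perm (Fin n) → MvPolynomial (Fin n) ℤ, IsSchubert n S →
      ∀ u : Perm (Fin n), (∀ x : Perm (Fin n), nu S x ≤ nu S u) →
        ∀ v : Perm (Fin n), IsLayered v →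
          (∀ w : Perm (Fin n), Real.exp ((n : ℝ) ^ 2 / (5 * 10 ^ 27) - 67 * (kendall w v : ℝ)) *
              ((nu S w : ℤ) : ℝ) ≤ ((nu S u : ℤ) : ℝ)) ∧
            n ^ 2 ≤ 4 * 10 ^ 29 * kendall u v :=
  ⟨existsUnique_isSchubert, fun n hn S hS u hu v hv =>
    Pool.Agent.helper58.Far.main n hn S hS u hu v hv⟩

end Pool.Agent.Results.MP_cb98a7_co.StabilityGap
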