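import Mathlib
import Pool.Agent.helper54.Schub.Defs
import Pool.Agent.helper54.Schub.Lay
import Pool.Agent.helper54.Upb.Main5

/-!
# An upper bound for the growth of the maximal principal evaluation of Schubert polynomials
-/

namespace Pool.Agent.Results.MP_cb98a7_co.UpperBound

open Equiv Pool.Agent.helper54.Schub

/-- The family of Schubert polynomials exists and is unique; every principal evaluation of a
permutation of `n` letters is at most `2 ^ (140 n + 100) * 1.639 ^ (n (n - 1) / 2)`, and hence, for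
all large `n`, at most `2 ^ (0.3565 n ^ 2)`. -/
theorem result :
    (∀ n : ℕ, ∃! S : Perm (Fin n) → MvPolynomial (Fin n) ℤ, IsSchubert n S) ∧
    (∀ n : ℕ, ∀ S : Perm (Fin n) → MvPolynomial (Fin n) ℤ, IsSchubert n S → ∀ w : Perm (Fin n),
      ((nu S w : ℤ) : ℝ) ≤ 2 ^ (140 * n + 100) * (1639 / 1000 : ℝ) ^ (n * (n - 1) / 2)) ∧
    ∃ n₀ : ℕ, ∀ n : ℕ, n₀ ≤ n →
      ∀ S : Perm (Fin n) → MvPolynomial (Fin n) ℤ, IsSchubert n S → ∀ w : Perm (Fin n),
        ((nu S w : ℤ) : ℝ) ≤ (2 : ℝ) ^ ((0.3565 : ℝ) * (n : ℝ) ^ 2) :=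
  ⟨existsUnique_isSchubert, Pool.Agent.helper54.Upb.upper, Pool.Agent.helper54.Upb.upper_asymp⟩

end Pool.Agent.Results.MP_cb98a7_co.UpperBound
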